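import Mathlib
import Pool.Agent.helper67.RG.Spec

/-!
# Project rg (MP_2e0e07_nt), row NSC: a pair with nonscalar second component
-/

namespace Pool.Agent.RG.NSC

open Matrix Polynomial Pool.Agent.GO Pool.Agent.AR Pool.Agent.RG

/-- evaluation of a combination of functions in the algebra -/
theorem sum_smul_apply {F Γ m : Type*} [Field F] [Group Γ] [Fintype m] [DecidableEq m]
    (R : Γ →* Matrix m m F) (x : m → F) (a : m → alg R) (h : Γ) :
    (∑ j, x j • a j : alg R).1 h = ∑ j, x j * (a j).1 h := by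
  rw [sum_alg_apply]
  rfl

/-- the derivation acts on the coefficients by the matrix of its values at `1` -/
theorem deriv_gen {F Γ m : Type*} [Field F] [IsAlgClosed F] [Group Γ] [Fintype m] [DecidableEq m]
    (R : Γ →* Matrix m m F) (g : Γ) (w : F → F) (D : Derivation F (alg R) (alg R))
    (hD : ∀ (χ : F) (x : m → F),
      x ∈ Module.End.maxGenEigenspace (Matrix.toLin' (R g)) χ →
      ∀ i, D (∑ j, x j • gen R i j) = w χ • ∑ j, x j • gen R i j) (i j : m) (h : Γ) :
    (D (gen R i j)).1 h = (R h * Matrix.of fun i j => (D (gen R i j)).1 1) i j := by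
  set Z : Matrix m m F := Matrix.of fun i j => (D (gen R i j)).1 1 with hZ
  -- values at `h` on a generalised eigenvector
  have key : ∀ (χ : F) (x : m → F),
      x ∈ Module.End.maxGenEigenspace (Matrix.toLin' (R g)) χ → ∀ (i : m) (h : Γ),
      ∑ j, x j * (D (gen R i j)).1 h = w χ * ∑ j, x j * R h i j := by
    intro χ x hx i h
    have h1 := hD χ x hx i
    have h2 : D (∑ j, x j • gen R i j) = ∑ j, x j • D (gen R i j) := by
      rw [map_sum]
      refine Finset.sum_congr rfl fun j _ => ?_
      exact D.map_smul (x j) (gen R i j)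
    have h3 := congrArg (fun f : alg R => f.1 h) (h2.symm.trans h1)
    have h4 : (∑ j, x j • D (gen R i j) : alg R).1 h = ∑ j, x j * (D (gen R i j)).1 h :=
      sum_smul_apply R x (fun j => D (gen R i j)) h
    have h5 : (w χ • ∑ j, x j • gen R i j : alg R).1 h = w χ * ∑ j, x j * R h i j := by
      have h6 := sum_smul_apply R x (fun j => gen R i j) h
      have h7 : (w χ • ∑ j, x j • gen R i j : alg R).1 h =
          w χ * (∑ j, x j • gen R i j : alg R).1 h := rfl
      rw [h7, h6]
      rfl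
    exact h4.symm.trans (h3.trans h5)
  have keyZ : ∀ (χ : F) (x : m → F),
      x ∈ Module.End.maxGenEigenspace (Matrix.toLin' (R g)) χ → Z *ᵥ x = w χ • x := by
    intro χ x hx
    funext i
    have h1 := key χ x hx i 1
    have h2 : (Z *ᵥ x) i = ∑ j, x j * (D (gen R i j)).1 1 := by
      rw [Matrix.mulVec, dotProduct]
      refine Finset.sum_congr rfl fun j _ => ?_
      rw [hZ, Matrix.of_apply, mul_comm]
    have h3 : ∑ j, x j * R 1 i j = x i := by
      rw [map_one, Finset.sum_eq_single i]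
      · rw [Matrix.one_apply_eq, mul_one]
      · intro j _ hj
        rw [Matrix.one_apply_ne (Ne.symm hj), mul_zero]
      · intro hi
        exact absurd (Finset.mem_univ i) hi
    rw [h2, h1, h3]
    rfl
  -- the linear form
  let L : (m → F) →ₗ[F] F :=
    { toFun := fun x => ∑ j, x j * (D (gen R i j)).1 h - (R h *ᵥ (Z *ᵥ x)) i
      map_add' := by
        intro x y
        rw [Matrix.mulVec_add, Matrix.mulVec_add]
        simp only [Pi.add_apply, add_mul, Finset.sum_add_distrib]
        ring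
      map_smul' := by
        intro c x
        rw [Matrix.mulVec_smul, Matrix.mulVec_smul]
        simp only [Pi.smul_apply, smul_eq_mul, RingHom.id_apply, mul_assoc, ← Finset.mul_sum]
        ring }
  have hL : ∀ x, L x = ∑ j, x j * (D (gen R i j)).1 h - (R h *ᵥ (Z *ᵥ x)) i := fun x => rfl
  have hker : LinearMap.ker L = ⊤ := by
    rw [eq_top_iff, ← Module.End.iSup_maxGenEigenspace_eq_top (Matrix.toLin' (R g))]
    refine iSup_le fun χ => ?_
    intro x hx
    rw [LinearMap.mem_ker, hL, key χ x hx i h, keyZ χ x hx, Matrix.mulVec_smul, Pi.smul_apply,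
      smul_eq_mul, sub_eq_zero]
    congr 1
    rw [Matrix.mulVec, dotProduct]
    exact Finset.sum_congr rfl fun j _ => mul_comm _ _
  have h1 : L (Pi.single j 1) = 0 := by
    rw [← LinearMap.mem_ker, hker]
    exact Submodule.mem_top
  rw [hL, sub_eq_zero] at h1
  have h2 : ∑ k, (Pi.single j (1 : F) : m → F) k * (D (gen R i k)).1 h = (D (gen R i j)).1 h := by
    rw [Finset.sum_eq_single j]
    · rw [Pi.single_eq_same, one_mul]
    · intro k _ hk
      rw [Pi.single_eq_of_ne hk, zero_mul]
    · intro hj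
      exact absurd (Finset.mem_univ j) hj
  rw [h2, Matrix.mulVec_mulVec, Matrix.mulVec_single_one] at h1
  exact h1

/-- the matrix of values at `1` acts on generalised eigenvectors by `w` -/
theorem Z_mulVec {F Γ m : Type*} [Field F] [Group Γ] [Fintype m] [DecidableEq m]
    (R : Γ →* Matrix m m F) (g : Γ) (w : F → F) (D : Derivation F (alg R) (alg R))
    (hD : ∀ (χ : F) (x : m → F),
      x ∈ Module.End.maxGenEigenspace (Matrix.toLin' (R g)) χ →
      ∀ i, D (∑ j, x j • gen R i j) = w χ • ∑ j, x j • gen R i j) (χ : F) (x : m → F)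
    (hx : x ∈ Module.End.maxGenEigenspace (Matrix.toLin' (R g)) χ) :
    (Matrix.of fun i j => (D (gen R i j)).1 1) *ᵥ x = w χ • x := by
  funext i
  have h1 := hD χ x hx i
  have h2 : D (∑ j, x j • gen R i j) = ∑ j, x j • D (gen R i j) := by
    rw [map_sum]
    refine Finset.sum_congr rfl fun j _ => ?_
    exact D.map_smul (x j) (gen R i j)
  have h3 := congrArg (fun f : alg R => f.1 1) (h2.symm.trans h1)
  have h4 : (∑ j, x j • D (gen R i j) : alg R).1 1 = ∑ j, x j * (D (gen R i j)).1 1 :=
    sum_smul_apply R x (fun j => D (gen R i j)) 1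
  have h5 : (w χ • ∑ j, x j • gen R i j : alg R).1 1 = w χ * ∑ j, x j * R 1 i j := by
    have h6 := sum_smul_apply R x (fun j => gen R i j) 1
    have h7 : (w χ • ∑ j, x j • gen R i j : alg R).1 1 =
        w χ * (∑ j, x j • gen R i j : alg R).1 1 := rfl
    rw [h7, h6]
    rfl
  have h8 : ∑ j, x j * R 1 i j = x i := by
    rw [map_one, Finset.sum_eq_single i]
    · rw [Matrix.one_apply_eq, mul_one]
    · intro j _ hj
      rw [Matrix.one_apply_ne (Ne.symm hj), mul_zero]
    · intro hi
      exact absurd (Finset.mem_univ i) hi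
  have h9 : ((Matrix.of fun i j => (D (gen R i j)).1 1) *ᵥ x) i =
      ∑ j, x j * (D (gen R i j)).1 1 := by
    rw [Matrix.mulVec, dotProduct]
    refine Finset.sum_congr rfl fun j _ => ?_
    rw [Matrix.of_apply, mul_comm]
  rw [h9, ← h4]
  refine h3.trans (h5.trans ?_)
  rw [h8]
  rfl

/-- a root of the characteristic polynomial has an eigenvector -/
theorem exists_eigenvector {F : Type*} [Field F] (A : Matrix (Fin 2) (Fin 2) F) (α : F)
    (h : A.charpoly.eval α = 0) : ∃ y : Fin 2 → F, y ≠ 0 ∧ A *ᵥ y = α • y := by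
  rw [Matrix.eval_charpoly] at h
  obtain ⟨y, hy, hy2⟩ := Matrix.exists_mulVec_eq_zero_iff.2 h
  refine ⟨y, hy, ?_⟩
  rw [Matrix.sub_mulVec, sub_eq_zero] at hy2
  rw [← hy2]
  funext i
  rw [Matrix.scalar_apply, Matrix.mulVec_diagonal]
  rfl

theorem NSC.{u, v, w} (hDWG : DWG_stmt.{u, v, w}) (hWEX : WEX_stmt.{u}) : NSC_stmt.{u, v, w} := by
  intro F Γ m _ _ _ _ _ _ V ρ g α β hch hpow
  -- `α`, `β` are nonzero
  have hdet : (ρ g).det ≠ 0 := by
    intro h0
    have h1 : ρ g * ρ g⁻¹ = 1 := by rw [← map_mul, mul_inv_cancel, map_one]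
    have h2 := congrArg Matrix.det h1
    rw [Matrix.det_mul, h0, zero_mul, Matrix.det_one] at h2
    exact zero_ne_one h2
  have hαβ : α * β ≠ 0 := by
    intro h0
    apply hdet
    rw [Matrix.det_eq_sign_charpoly_coeff, Polynomial.coeff_zero_eq_eval_zero, hch]
    simp [h0]
  have hα : α ≠ 0 := left_ne_zero_of_mul hαβ
  have hβ : β ≠ 0 := right_ne_zero_of_mul hαβ
  have hc : α / β ≠ 0 := div_ne_zero hα hβ
  have hck : ∀ k : ℕ, 0 < k → (α / β) ^ k ≠ 1 := by
    intro k hk h1
    apply hpow k hk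
    rw [div_pow, div_eq_one_iff_eq (pow_ne_zero k hβ)] at h1
    exact h1
  obtain ⟨w, hw, hwc⟩ := hWEX (α / β) hc hck
  have hwαβ : w α ≠ w β := by
    intro h1
    apply hwc
    have h2 := hw (α / β) β hc hβ
    rw [div_mul_cancel₀ α hβ, h1] at h2
    exact left_eq_add.mp (by rw [add_comm]; exact h2)
  obtain ⟨D, hD⟩ := hDWG (ds V ρ) g w hw
  set Z : Matrix (m ⊕ Fin 2) (m ⊕ Fin 2) F :=
    Matrix.of fun i j => (D (gen (ds V ρ) i j)).1 1 with hZ
  have hgen : ∀ i j h, (D (gen (ds V ρ) i j)).1 h = (ds V ρ h * Z) i j := fun i j h =>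
    deriv_gen (ds V ρ) g w D hD i j h
  have hZv : ∀ (χ : F) (x : m ⊕ Fin 2 → F),
      x ∈ Module.End.maxGenEigenspace (Matrix.toLin' (ds V ρ g)) χ → Z *ᵥ x = w χ • x :=
    fun χ x hx => Z_mulVec (ds V ρ) g w D hD χ x hx
  have hds : ∀ h, ds V ρ h = Matrix.fromBlocks (V h) 0 0 (ρ h) := fun h => rfl
  refine ⟨(Z.toBlocks₁₁, Z.toBlocks₂₂), ⟨D, ?_, ?_⟩, ?_⟩
  · intro i j h
    rw [hgen, hds, ← Matrix.fromBlocks_toBlocks Z, Matrix.fromBlocks_multiply]
    simp
  · intro i j h
    rw [hgen, hds, ← Matrix.fromBlocks_toBlocks Z, Matrix.fromBlocks_multiply]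
    simp
  · -- not scalar
    rintro ⟨c, hcY⟩
    have hcY' : Z.toBlocks₂₂ = c • (1 : Matrix (Fin 2) (Fin 2) F) := hcY
    have eig : ∀ γ : F, (ρ g).charpoly.eval γ = 0 → c = w γ := by
      intro γ hγ
      obtain ⟨y, hy0, hy⟩ := exists_eigenvector (ρ g) γ hγ
      have hx : (Sum.elim (0 : m → F) y) ∈
          Module.End.maxGenEigenspace (Matrix.toLin' (ds V ρ g)) γ := by
        rw [Module.End.mem_maxGenEigenspace]
        refine ⟨1, ?_⟩
        rw [pow_one, LinearMap.sub_apply, Matrix.toLin'_apply, LinearMap.smul_apply,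
          Module.End.one_apply, hds, Matrix.fromBlocks_mulVec, sub_eq_zero]
        funext k
        cases k with
        | inl k => simp
        | inr k =>
          have := congrFun hy k
          simpa using this
      have h1 := hZv γ _ hx
      rw [← Matrix.fromBlocks_toBlocks Z, Matrix.fromBlocks_mulVec] at h1
      have h2 : Z.toBlocks₂₂ *ᵥ y = w γ • y := by
        funext k
        have := congrFun h1 (Sum.inr k)
        simpa using this
      rw [hcY', Matrix.smul_mulVec, Matrix.one_mulVec] at h2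
      have h3 : (c - w γ) • y = 0 := by rw [sub_smul, h2, sub_self]
      rcases smul_eq_zero.1 h3 with h4 | h4
      · exact sub_eq_zero.1 h4
      · exact absurd h4 hy0
    have hA : (ρ g).charpoly.eval α = 0 := by rw [hch]; simp
    have hB : (ρ g).charpoly.eval β = 0 := by rw [hch]; simp
    exact hwαβ ((eig α hA).symm.trans (eig β hB))

end Pool.Agent.RG.NSC
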